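import Pool.Agent.W832.KMP.Iter
import Pool.Agent.W832.KMP.Spec

/-! The spectral gap of the discrete KMP process on a weighted hypergraph is the gap with two
particles. -/

set_option autoImplicit false

open Finset Matrix

namespace Pool.Agent.Results.MP_19659a_pr.HypergraphKMPGap

open Pool.Agent.W832.KMP

/-- configurations of `k` particles on `n` sites -/
abbrev Config (n k : ℕ) : Type := {f : Fin n → ℕ // ∑ i, f i = k}

noncomputable instance configFintype (n k : ℕ) : Fintype (Config n k) :=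
  Fintype.subtype (Finset.piAntidiag univ k) (by simp)

/-- the configurations `g` (with the same number of particles) which agree with `f` off `B` -/
noncomputable def mates {n k : ℕ} (B : Finset (Fin n)) (f : Config n k) : Finset (Config n k) :=
  univ.filter (fun g => ∀ j, j ∉ B → g.1 j = f.1 j)

/-- the matrix of the averaging operator over `B`: the column of `f` is the uniform
distribution on the configurations which agree with `f` off `B` -/
noncomputable def avgOp {n k : ℕ} (B : Finset (Fin n)) : Matrix (Config n k) (Config n k) ℂ :=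
  Matrix.of fun g f => if g ∈ mates B f then 1 / ((mates B f).card : ℂ) else 0

/-- the Laplacian `Σ_B w_B (1 - N_B)` on `k` particles -/
noncomputable def laplacian {n : ℕ} (w : Finset (Fin n) → ℝ) (k : ℕ) :
    Matrix (Config n k) (Config n k) ℂ :=
  ∑ B : Finset (Fin n), (w B : ℂ) • (1 - avgOp B)

/-- the spectrum with multiplicity, one copy of the eigenvalue `0` removed -/
noncomputable def specStar {n : ℕ} (w : Finset (Fin n) → ℝ) (k : ℕ) : Multiset ℂ :=
  (laplacian w k).charpoly.roots.erase 0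

/-- `x` is the smallest element of the spectrum after one copy of `0` is removed -/
def IsLamStar {n : ℕ} (w : Finset (Fin n) → ℝ) (k : ℕ) (x : ℝ) : Prop :=
  (x : ℂ) ∈ specStar w k ∧ ∀ z ∈ specStar w k, z.im = 0 ∧ x ≤ z.re

variable {n : ℕ}

/-- real version -/
noncomputable def avgR (k : ℕ) (B : Finset (Fin n)) : Matrix (Config n k) (Config n k) ℝ :=
  Matrix.of fun g f => if g ∈ mates B f then 1 / ((mates B f).card : ℝ) else 0

noncomputable def lapR (w : Finset (Fin n) → ℝ) (k : ℕ) : Matrix (Config n k) (Config n k) ℝ :=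
  ∑ B : Finset (Fin n), w B • (1 - avgR k B)

theorem lapR_map (w : Finset (Fin n) → ℝ) (k : ℕ) :
    (lapR w k).map (fun x : ℝ => (x : ℂ)) = laplacian w k := by
  ext g f
  simp only [Matrix.map_apply, lapR, laplacian, Matrix.sum_apply, Matrix.smul_apply,
    Matrix.sub_apply, smul_eq_mul]
  push_cast
  apply Finset.sum_congr rfl
  intro B _
  congr 1
  have h1 : (((1 : Matrix (Config n k) (Config n k) ℝ) g f : ℝ) : ℂ) =
      (1 : Matrix (Config n k) (Config n k) ℂ) g f := by
    by_cases h : g = f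
    · subst h; simp
    · simp [Matrix.one_apply_ne h]
  rw [h1]
  congr 1
  simp only [avgR, avgOp, Matrix.of_apply]
  split_ifs <;> simp

theorem mem_mates {k : ℕ} {B : Finset (Fin n)} {f g : Config n k} :
    g ∈ mates B f ↔ ∀ j, j ∉ B → g.1 j = f.1 j := by
  simp [mates]

theorem mates_eq {k : ℕ} {B : Finset (Fin n)} {f g : Config n k} (h : g ∈ mates B f) :
    mates B g = mates B f := by
  rw [mem_mates] at h
  ext x
  rw [mem_mates, mem_mates]
  exact ⟨fun h1 j hj => (h1 j hj).trans (h j hj), fun h1 j hj => (h1 j hj).trans (h j hj).symm⟩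

theorem mates_symm {k : ℕ} {B : Finset (Fin n)} {f g : Config n k} :
    g ∈ mates B f ↔ f ∈ mates B g := by
  rw [mem_mates, mem_mates]
  exact ⟨fun h j hj => (h j hj).symm, fun h j hj => (h j hj).symm⟩

theorem avgR_symm (k : ℕ) (B : Finset (Fin n)) (f g : Config n k) :
    avgR k B f g = avgR k B g f := by
  simp only [avgR, Matrix.of_apply]
  by_cases h : g ∈ mates B f
  · rw [if_pos h, if_pos (mates_symm.1 h), mates_eq h]
  · rw [if_neg h, if_neg (fun h' => h (mates_symm.1 h'))]

theorem lapR_herm (w : Finset (Fin n) → ℝ) (k : ℕ) : (lapR w k).IsHermitian := by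
  rw [Matrix.IsHermitian, conjTranspose_eq_transpose_of_trivial]
  ext g f
  simp only [Matrix.transpose_apply, lapR, Matrix.sum_apply, Matrix.smul_apply,
    Matrix.sub_apply, smul_eq_mul]
  apply Finset.sum_congr rfl
  intro B _
  rw [avgR_symm]
  congr 2
  by_cases h : g = f
  · subst h; rfl
  · rw [Matrix.one_apply_ne h, Matrix.one_apply_ne (Ne.symm h)]

theorem sum_mates {k : ℕ} (B : Finset (Fin n)) (f : Config n k) (c : (Fin n → ℕ) → ℝ) :
    ∑ g ∈ mates B f, c g.1 = ∑ g ∈ cls B f.1, c g := by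
  refine Finset.sum_bij (fun g _ => g.1) ?_ ?_ ?_ ?_
  · intro g hg
    rw [mem_cls]
    exact ⟨by rw [g.2, f.2], mem_mates.1 hg⟩
  · intro g _ g' _ h
    exact Subtype.ext h
  · intro g hg
    rw [mem_cls] at hg
    exact ⟨⟨g, by rw [hg.1, f.2]⟩, mem_mates.2 hg.2, rfl⟩
  · intro g _
    rfl

theorem card_mates {k : ℕ} (B : Finset (Fin n)) (f : Config n k) :
    (mates B f).card = (cls B f.1).card := by
  have := sum_mates B f (fun _ => 1)
  simp only [Finset.sum_const, nsmul_eq_mul, mul_one] at this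
  exact_mod_cast this

/-- the action of the real matrix -/
theorem avgR_mulVec (k : ℕ) (B : Finset (Fin n)) (c : (Fin n → ℕ) → ℝ) (f : Config n k) :
    (avgR k B *ᵥ (fun g : Config n k => c g.1)) f = avg B c f.1 := by
  simp only [mulVec, dotProduct]
  have : ∀ g : Config n k, avgR k B f g * c g.1 =
      if g ∈ mates B f then (1 / ((mates B f).card : ℝ)) * c g.1 else 0 := by
    intro g
    rw [avgR_symm]
    simp only [avgR, Matrix.of_apply]
    split_ifs <;> simp
  rw [Finset.sum_congr rfl (fun g _ => this g), Finset.sum_ite_mem, Finset.univ_inter,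
    ← Finset.mul_sum, sum_mates, card_mates]
  unfold avg
  ring

theorem lapR_mulVec (w : Finset (Fin n) → ℝ) (k : ℕ) (c : (Fin n → ℕ) → ℝ) :
    lapR w k *ᵥ (fun g : Config n k => c g.1) = fun f => LL w c f.1 := by
  funext f
  have : lapR w k *ᵥ (fun g : Config n k => c g.1) =
      ∑ B, w B • ((fun g : Config n k => c g.1) - avgR k B *ᵥ (fun g : Config n k => c g.1)) := by
    unfold lapR
    rw [Matrix.sum_mulVec]
    apply Finset.sum_congr rfl
    intro B _
    rw [Matrix.smul_mulVec, Matrix.sub_mulVec, Matrix.one_mulVec]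
  rw [this]
  simp only [Finset.sum_apply, Pi.smul_apply, Pi.sub_apply, smul_eq_mul]
  unfold LL
  apply Finset.sum_congr rfl
  intro B _
  rw [avgR_mulVec]

theorem exists_ext {k : ℕ} (v : Config n k → ℝ) :
    ∃ c : (Fin n → ℕ) → ℝ, (fun g : Config n k => c g.1) = v := by
  classical
  refine ⟨fun f => if h : ∑ i, f i = k then v ⟨f, h⟩ else 0, ?_⟩
  funext g
  simp [g.2]

theorem EigM_iff (w : Finset (Fin n) → ℝ) (k : ℕ) (y : ℝ) : EigM (lapR w k) y ↔ Eig w k y := by
  constructor
  · rintro ⟨v, hv, i, j, hij⟩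
    obtain ⟨c, rfl⟩ := exists_ext v
    refine ⟨c, fun f hf => ?_, i.1, j.1, i.2, j.2, hij⟩
    rw [lapR_mulVec] at hv
    have := congrFun hv ⟨f, hf⟩
    simpa using this
  · rintro ⟨c, hc, f, g, hf, hg, hne⟩
    refine ⟨fun g => c g.1, ?_, ⟨f, hf⟩, ⟨g, hg⟩, hne⟩
    rw [lapR_mulVec]
    funext p
    simp [hc p.1 p.2]

theorem lapR_one (w : Finset (Fin n) → ℝ) (k : ℕ) : lapR w k *ᵥ (fun _ => 1) = 0 := by
  have := lapR_mulVec w k (fun _ => 1)
  rw [this]
  funext f
  simp [LL, avg_const]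

theorem mem_specStar (w : Finset (Fin n) → ℝ) (k : ℕ) (z : ℂ) :
    z ∈ specStar w k ↔ ∃ y : ℝ, z = y ∧ Eig w k y := by
  unfold specStar
  rw [← lapR_map, mem_roots_erase (lapR w k) (lapR_herm w k) (lapR_one w k)]
  simp only [EigM_iff]

theorem isLamStar_iff (w : Finset (Fin n) → ℝ) (k : ℕ) (x : ℝ) :
    IsLamStar w k x ↔ Eig w k x ∧ ∀ y, Eig w k y → x ≤ y := by
  unfold IsLamStar
  constructor
  · rintro ⟨h1, h2⟩
    obtain ⟨y, hy, hE⟩ := (mem_specStar w k _).1 h1
    have : x = y := by exact_mod_cast hy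
    subst this
    refine ⟨hE, fun y hy => ?_⟩
    have := (h2 (y : ℂ) ((mem_specStar w k _).2 ⟨y, rfl, hy⟩)).2
    simpa using this
  · rintro ⟨h1, h2⟩
    refine ⟨(mem_specStar w k _).2 ⟨x, rfl, h1⟩, fun z hz => ?_⟩
    obtain ⟨y, rfl, hE⟩ := (mem_specStar w k _).1 hz
    exact ⟨by simp, by simpa using h2 y hE⟩

theorem form_const_zero (c : (Fin n → ℕ) → ℝ) (a : ℝ) (hc : ∀ f : Fin n → ℕ, ∑ i, f i = 2 → c f = a)
    (u : Fin n → ℝ) (hu : ∑ i, u i = 0) : form c 0 u = 0 := by
  unfold form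
  have : ∀ i j, u i * u j * c (0 + dl i + dl j) = u i * u j * a := by
    intro i j
    rw [hc]
    rw [sum_add_dl, sum_add_dl]
    simp
  simp only [this]
  simp only [← Finset.sum_mul, ← Finset.mul_sum, hu, mul_zero, zero_mul, Finset.sum_const_zero]

/-- the functional `form · 0 u` on functions of two-particle configurations -/
noncomputable def formLin (u : Fin n → ℝ) : (Config n 2 → ℝ) →ₗ[ℝ] ℝ where
  toFun v := ∑ a, ∑ b, u a * u b * v ⟨0 + dl a + dl b, by rw [sum_add_dl, sum_add_dl]; simp⟩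
  map_add' v v' := by
    rw [← Finset.sum_add_distrib]
    apply Finset.sum_congr rfl
    intro a _
    rw [← Finset.sum_add_distrib]
    apply Finset.sum_congr rfl
    intro b _
    rw [Pi.add_apply]
    ring
  map_smul' r v := by
    simp only [Pi.smul_apply, smul_eq_mul, RingHom.id_apply, Finset.mul_sum]
    apply Finset.sum_congr rfl
    intro a _
    apply Finset.sum_congr rfl
    intro b _
    ring

theorem formLin_apply (u : Fin n → ℝ) (c : (Fin n → ℕ) → ℝ) :
    formLin u (fun g : Config n 2 => c g.1) = form c 0 u := rfl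

theorem card_config (hn : 2 ≤ n) : 1 < Fintype.card (Config n 2) := by
  rw [Fintype.one_lt_card_iff]
  have h0 : 0 < n := by omega
  have h1 : 1 < n := by omega
  refine ⟨⟨Pi.single ⟨0, h0⟩ 2, by simp⟩, ⟨Pi.single ⟨1, h1⟩ 2, by simp⟩, ?_⟩
  intro h
  have := congrFun (congrArg Subtype.val h) ⟨0, h0⟩
  simp at this

theorem main (hn : 2 ≤ n) (w : Finset (Fin n) → ℝ) (hw : ∀ B, 0 ≤ w B) :
    ∃ x : ℝ, (Eig w 2 x ∧ ∀ y, Eig w 2 y → x ≤ y) ∧
      ∀ k, 2 ≤ k → (Eig w k x ∧ ∀ y, Eig w k y → x ≤ y) := by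
  obtain ⟨x0, hx0, hmin⟩ := exists_least (lapR w 2) (lapR_herm w 2) (card_config hn)
  rw [EigM_iff] at hx0
  have hmin' : ∀ y, Eig w 2 y → x0 ≤ y := fun y hy => hmin y ((EigM_iff w 2 y).2 hy)
  have i0 : Fin n := ⟨0, by omega⟩
  refine ⟨x0, ⟨hx0, hmin'⟩, ?_⟩
  set W : ℝ := ∑ B, w B with hW
  have hW0 : 0 ≤ W := Finset.sum_nonneg fun B _ => hw B
  set ε : ℝ := 1 / (2 * W + 1) with hε
  have hden : 0 < 2 * W + 1 := by linarith
  have hεpos : 0 < ε := by positivity
  have hεW : ε * W ≤ 1 := by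
    rw [hε, div_mul_eq_mul_div, one_mul, div_le_one hden]
    linarith
  have hlam : ∀ y, Eig w 2 y → 0 ≤ 1 - ε * y := by
    intro y hy
    have h1 := Eig_le w hw 2 y hy
    have h2 : ε * y ≤ ε * (2 * W) := mul_le_mul_of_nonneg_left h1 hεpos.le
    have h3 : ε * (2 * W) ≤ 1 := by
      rw [hε, div_mul_eq_mul_div, one_mul, div_le_one hden]
      linarith
    linarith
  have hup : ∀ m, Eig w (m + 2) x0 := by
    intro m
    induction m with
    | zero => exact hx0
    | succ m ih => exact Eig_up i0 w (m + 2) x0 ih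
  have hq : ∀ u : Fin n → ℝ, ∑ i, u i = 0 →
      ∃ C : ℝ, ∀ t : ℕ, |form ((PP w ε)^[t] qq) 0 u| ≤ C * (1 - ε * x0) ^ t := by
    intro u hu
    have hs1 : ∀ y, EigM (lapR w 2) y → |1 - ε * y| ≤ 1 - ε * x0 := by
      intro y hy
      rw [EigM_iff] at hy
      rw [abs_of_nonneg (hlam y hy)]
      have h2 : ε * x0 ≤ ε * y := mul_le_mul_of_nonneg_left (hmin' y hy) hεpos.le
      linarith
    have hs2 : ∀ v : Config n 2 → ℝ, (∀ i j, v i = v j) → formLin u v = 0 := by
      intro v hv
      obtain ⟨c, rfl⟩ := exists_ext v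
      rw [formLin_apply]
      have p0 : Config n 2 := ⟨Pi.single i0 2, by simp⟩
      exact form_const_zero c (c p0.1) (fun f hf => hv ⟨f, hf⟩ p0) u hu
    obtain ⟨C, hC⟩ := spec_bound (lapR w 2) (lapR_herm w 2) ε (1 - ε * x0) hs1
      (formLin u) hs2 (fun g : Config n 2 => qq g.1)
    refine ⟨C, fun t => ?_⟩
    have h1 : ∀ t : ℕ, (fun x => x - ε • (lapR w 2 *ᵥ x))^[t] (fun g : Config n 2 => qq g.1) =
        fun g : Config n 2 => ((PP w ε)^[t] qq) g.1 := by
      intro t
      induction t with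
      | zero => rfl
      | succ t ih =>
        rw [Function.iterate_succ_apply', ih, lapR_mulVec]
        funext g
        rw [Function.iterate_succ_apply']
        rfl
    have h2 := hC t
    rw [h1 t, formLin_apply] at h2
    exact h2
  intro k hk
  obtain ⟨m, rfl⟩ : ∃ m, k = m + 2 := ⟨k - 2, by omega⟩
  exact ⟨hup m, Eig_lower i0 w hw ε hεpos hεW x0 hmin' hq (hlam x0 hx0) m⟩

/-- For every `n ≥ 2`, all nonnegative weights on the subsets of `[n]` and every `k ≥ 2`, the
smallest nontrivial eigenvalue with `k` particles exists and equals the one with two. -/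
theorem result (n : ℕ) (hn : 2 ≤ n) (w : Finset (Fin n) → ℝ) (hw : ∀ B, 0 ≤ w B)
    (k : ℕ) (hk : 2 ≤ k) :
    ∃ x : ℝ, IsLamStar w k x ∧ IsLamStar w 2 x := by
  obtain ⟨x, h2, hall⟩ := main hn w hw
  exact ⟨x, (isLamStar_iff w k x).2 (hall k hk), (isLamStar_iff w 2 x).2 h2⟩

end Pool.Agent.Results.MP_19659a_pr.HypergraphKMPGap
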